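import Pool.Agent.H72.KJ.Defs
import Pool.Agent.H82.KSP.TRC

/-!
# LEMMA J: superadditivity of the row entropies (JADD)

`hrw r₁ r₂ + hrw r₂ r₃ ≤ hrw r₁ r₃ + ef + C`: the finer base coordinates do not see the rows of the
passive coordinate, because the leaf is full and the passive coordinate is known given the leaf.
-/

set_option autoImplicit false

namespace Pool.KJ

open Finset Real
open Pool.Agent.H49.Ent Pool.Agent.H32.Dense Pool.STK Pool.KAF Pool.KAL Pool.KST Pool.KS3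

section

variable {Ω S T : Type*} [Fintype Ω]

/-- The entropy of a vector in a cube with `2 ^ s` points per side. -/
lemma ch_sub {d s : ℕ} {p : Ω → ℝ} (hp : ∀ ω, 0 ≤ p ω) (h1 : ∑ ω, p ω = 1)
    (X : Ω → Fin d → ℕ) (W : Ω → T) (c : T → Fin d → ℕ)
    (h : ∀ ω, 0 < p ω → ∀ i, X ω i / 2 ^ s = c (W ω) i) :
    CH p X W ≤ d * (s * Real.log 2) := by
  classical
  have h2 := CH_le_card hp h1 X W
    (fun w => Fintype.piFinset fun i => Finset.Ico (c w i * 2 ^ s) ((c w i + 1) * 2 ^ s))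
    (by
      intro ω hω
      rw [Fintype.mem_piFinset]
      intro i
      rw [Finset.mem_Ico, ← h ω hω i]
      constructor
      · exact Nat.div_mul_le_self _ _
      · have := Nat.lt_div_mul_add (a := X ω i) (b := 2 ^ s) (by positivity)
        rw [Nat.add_mul, Nat.one_mul]
        exact this)
  refine h2.trans (le_of_eq ?_)
  have h3 : ∀ w : T, Real.log ((Fintype.piFinset fun i : Fin d =>
      Finset.Ico (c w i * 2 ^ s) ((c w i + 1) * 2 ^ s)).card : ℝ) = d * (s * Real.log 2) := by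
    intro w
    rw [Fintype.card_piFinset]
    have h4 : ∀ i : Fin d, (Finset.Ico (c w i * 2 ^ s) ((c w i + 1) * 2 ^ s)).card = 2 ^ s := by
      intro i
      rw [Nat.card_Ico, Nat.add_mul, Nat.one_mul, Nat.add_sub_cancel_left]
    rw [Finset.prod_congr rfl fun i _ => h4 i, Finset.prod_const, Finset.card_univ,
      Fintype.card_fin]
    push_cast
    rw [Real.log_pow, Real.log_pow]
  simp only [h3]
  exact Ex_const h1 _

end

section

variable {n a L : ℕ} {C₀ : ℝ} {Ω Λ Ξ Z β : Type} [Fintype Ω] {p : Ω → ℝ} {lam : Ω → Λ}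
  {x : Ω → Ξ} {T : Ξ → ℕ} {pos : Ξ → Option (Fin n) → ℕ} {A B : Λ → Option (Fin n) → ℝ}
  {zx : Ξ → Z} {zl : Λ → ℕ → Z} {cz : Z → Option (Fin n) → ℕ} {G : Z → MvPolynomial (Fin n) ℝ}
  {k₀ : ℕ}

lemma div_pow_sub (v : ℕ) {L r r' : ℕ} (h : r ≤ r') (h' : r' ≤ L) :
    v / 2 ^ (L - r') / 2 ^ (r' - r) = v / 2 ^ (L - r) := by
  rw [Nat.div_div_eq_div_mul, ← pow_add]
  congr 2
  omega

lemma div_pow_self (v : ℕ) {L r : ℕ} (h : r ≤ L) : v / 2 ^ (L - r) / 2 ^ r = v / 2 ^ L := by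
  rw [Nat.div_div_eq_div_mul, ← pow_add]
  congr 2
  omega

/-- Given the leaf and the base coordinates up to the row `r`, the passive coordinate up to the row
`r` has a bounded number of values. -/
lemma near_N (hF : StepF n a L C₀ p lam x T pos A B zx zl cz) (hC₀ : 0 ≤ C₀)
    (hreg : ∀ ω, 0 < p ω → RegG (G (zx (x ω))) (fun _ => 0) 1 k₀ (3 * C₀))
    (hgr : ∀ ω, 0 < p ω → |rp (2 ^ L) (posS pos L) (x ω) none - MvPolynomial.eval
      (yb L pos (x ω)) (G (zx (x ω)))| ≤ 3 * C₀ / 2 ^ L) {r : ℕ} (_hr : r ≤ L) {ω ω' : Ω}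
    (hω : 0 < p ω) (hω' : 0 < p ω') (hY : Yr L pos r (x ω) = Yr L pos r (x ω'))
    (hz : zx (x ω) = zx (x ω')) :
    |(((Nr L pos r (x ω) : ℤ) - (Nr L pos r (x ω') : ℤ) : ℤ) : ℝ)| ≤ (3 * n + 6) * C₀ + 1 := by
  have h2L : (0 : ℝ) < 2 ^ L := by positivity
  have h2s : (1 : ℝ) ≤ 2 ^ (L - r) := one_le_pow₀ (by norm_num)
  have hcell : ∀ o, pos (x ω) o / 2 ^ L = pos (x ω') o / 2 ^ L := by
    intro o
    rw [hF.cell, hF.cell, hz]
  have hS : ∀ o, (posS pos L (x ω) o : ℝ) - (posS pos L (x ω') o : ℝ) =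
      (pos (x ω) o : ℝ) - (pos (x ω') o : ℝ) := by
    intro o
    have e1 := Nat.div_add_mod (pos (x ω) o) (2 ^ L)
    have e2 := Nat.div_add_mod (pos (x ω') o) (2 ^ L)
    rw [hcell o] at e1
    have e1' : ((2 ^ L * (pos (x ω') o / 2 ^ L) + pos (x ω) o % 2 ^ L : ℕ) : ℝ) =
        (pos (x ω) o : ℝ) := by rw [e1]
    have e2' : ((2 ^ L * (pos (x ω') o / 2 ^ L) + pos (x ω') o % 2 ^ L : ℕ) : ℝ) =
        (pos (x ω') o : ℝ) := by rw [e2]
    push_cast at e1' e2'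
    simp only [posS]
    linarith
  have hmem : ∀ ω : Ω, yb L pos (x ω) ∈ cube (fun _ => 0) 1 := by
    intro ω i
    have h1 : (posS pos L (x ω) (some i) : ℝ) < 2 ^ L := by
      have : posS pos L (x ω) (some i) < 2 ^ L := Nat.mod_lt _ (by positivity)
      exact_mod_cast this
    simp only [yb, rp]
    push_cast
    constructor
    · positivity
    · rw [zero_add, div_le_one h2L]
      exact h1.le
  have hdy : ∀ i, |yb L pos (x ω) i - yb L pos (x ω') i| ≤ 2 ^ (L - r) / 2 ^ L := by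
    intro i
    have h1 := congrFun hY i
    simp only [Yr] at h1
    have e1 := Nat.div_add_mod (pos (x ω) (some i)) (2 ^ (L - r))
    have e2 := Nat.div_add_mod (pos (x ω') (some i)) (2 ^ (L - r))
    have m1 := Nat.mod_lt (pos (x ω) (some i)) (y := 2 ^ (L - r)) (by positivity)
    have m2 := Nat.mod_lt (pos (x ω') (some i)) (y := 2 ^ (L - r)) (by positivity)
    rw [h1] at e1
    have h3 : |(pos (x ω) (some i) : ℝ) - (pos (x ω') (some i) : ℝ)| ≤ 2 ^ (L - r) := by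
      have h4 : (pos (x ω) (some i) : ℝ) ≤ pos (x ω') (some i) + 2 ^ (L - r) := by
        have : pos (x ω) (some i) ≤ pos (x ω') (some i) + 2 ^ (L - r) := by omega
        exact_mod_cast this
      have h5 : (pos (x ω') (some i) : ℝ) ≤ pos (x ω) (some i) + 2 ^ (L - r) := by
        have : pos (x ω') (some i) ≤ pos (x ω) (some i) + 2 ^ (L - r) := by omega
        exact_mod_cast this
      rw [abs_le]
      constructor <;> linarith
    simp only [yb, rp]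
    push_cast
    rw [← sub_div, hS (some i), abs_div, abs_of_pos h2L]
    exact div_le_div_of_nonneg_right h3 h2L.le
  have hlip := (hreg ω hω).lipU (hmem ω) (hmem ω') hdy
  have g1 := hgr ω hω
  have g2 := hgr ω' hω'
  rw [← hz] at g2
  have hpn : |(pos (x ω) none : ℝ) - (pos (x ω') none : ℝ)| ≤
      (3 * n + 6) * C₀ * 2 ^ (L - r) := by
    have h3 : |rp (2 ^ L) (posS pos L) (x ω) none - rp (2 ^ L) (posS pos L) (x ω') none| ≤
        3 * C₀ / 2 ^ L + n * (3 * C₀) * (2 ^ (L - r) / 2 ^ L) + 3 * C₀ / 2 ^ L := by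
      have e : rp (2 ^ L) (posS pos L) (x ω) none - rp (2 ^ L) (posS pos L) (x ω') none =
          (rp (2 ^ L) (posS pos L) (x ω) none -
            MvPolynomial.eval (yb L pos (x ω)) (G (zx (x ω)))) +
          (MvPolynomial.eval (yb L pos (x ω)) (G (zx (x ω))) -
            MvPolynomial.eval (yb L pos (x ω')) (G (zx (x ω)))) -
          (rp (2 ^ L) (posS pos L) (x ω') none -
            MvPolynomial.eval (yb L pos (x ω')) (G (zx (x ω)))) := by ring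
      rw [e]
      exact (abs_sub _ _).trans (add_le_add ((abs_add_le _ _).trans (add_le_add g1 hlip)) g2)
    simp only [rp] at h3
    push_cast at h3
    rw [← sub_div, hS none, abs_div, abs_of_pos h2L, div_le_iff₀ h2L] at h3
    have e2 : (3 * C₀ / 2 ^ L + n * (3 * C₀) * (2 ^ (L - r) / 2 ^ L) + 3 * C₀ / 2 ^ L) * 2 ^ L =
        3 * C₀ + n * (3 * C₀) * 2 ^ (L - r) + 3 * C₀ := by
      field_simp
    rw [e2] at h3
    have h6 : 6 * C₀ * 1 ≤ 6 * C₀ * 2 ^ (L - r) :=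
      mul_le_mul_of_nonneg_left h2s (by linarith)
    have e3 : (3 * (n : ℝ) + 6) * C₀ * 2 ^ (L - r) =
        n * (3 * C₀) * 2 ^ (L - r) + 6 * C₀ * 2 ^ (L - r) := by ring
    rw [e3]
    linarith
  -- the integer parts
  have e1 := Nat.div_add_mod (pos (x ω) none) (2 ^ (L - r))
  have e2 := Nat.div_add_mod (pos (x ω') none) (2 ^ (L - r))
  have m1 := Nat.mod_lt (pos (x ω) none) (y := 2 ^ (L - r)) (by positivity)
  have m2 := Nat.mod_lt (pos (x ω') none) (y := 2 ^ (L - r)) (by positivity)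
  have e1' : (2 : ℝ) ^ (L - r) * (Nr L pos r (x ω) : ℝ) + ((pos (x ω) none % 2 ^ (L - r) : ℕ) : ℝ) =
      (pos (x ω) none : ℝ) := by
    simp only [Nr]
    exact_mod_cast e1
  have e2' : (2 : ℝ) ^ (L - r) * (Nr L pos r (x ω') : ℝ) +
      ((pos (x ω') none % 2 ^ (L - r) : ℕ) : ℝ) = (pos (x ω') none : ℝ) := by
    simp only [Nr]
    exact_mod_cast e2
  have m1' : ((pos (x ω) none % 2 ^ (L - r) : ℕ) : ℝ) ≤ 2 ^ (L - r) := by
    exact_mod_cast m1.le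
  have m2' : ((pos (x ω') none % 2 ^ (L - r) : ℕ) : ℝ) ≤ 2 ^ (L - r) := by
    exact_mod_cast m2.le
  have p1 : (0 : ℝ) ≤ ((pos (x ω) none % 2 ^ (L - r) : ℕ) : ℝ) := Nat.cast_nonneg _
  have p2 : (0 : ℝ) ≤ ((pos (x ω') none % 2 ^ (L - r) : ℕ) : ℝ) := Nat.cast_nonneg _
  have h2s0 : (0 : ℝ) < 2 ^ (L - r) := by positivity
  obtain ⟨q1, q2⟩ := abs_le.mp hpn
  push_cast
  rw [abs_le]
  constructor
  · refine le_of_mul_le_mul_left ?_ h2s0
    have : (2 : ℝ) ^ (L - r) * -((3 * n + 6) * C₀ + 1) =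
        -((3 * n + 6) * C₀ * 2 ^ (L - r)) - 2 ^ (L - r) := by ring
    rw [this, mul_sub]
    linarith
  · refine le_of_mul_le_mul_left ?_ h2s0
    have : (2 : ℝ) ^ (L - r) * ((3 * n + 6) * C₀ + 1) =
        (3 * n + 6) * C₀ * 2 ^ (L - r) + 2 ^ (L - r) := by ring
    rw [this, mul_sub]
    linarith

/-- The error of superadditivity. -/
noncomputable def Cadd (n : ℕ) (C₀ : ℝ) : ℝ := Real.log (2 * ((3 * n + 6) * C₀ + 1) + 1)

lemma CH_N_le (hF : StepF n a L C₀ p lam x T pos A B zx zl cz) (hC₀ : 0 ≤ C₀)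
    (hreg : ∀ ω, 0 < p ω → RegG (G (zx (x ω))) (fun _ => 0) 1 k₀ (3 * C₀))
    (hgr : ∀ ω, 0 < p ω → |rp (2 ^ L) (posS pos L) (x ω) none - MvPolynomial.eval
      (yb L pos (x ω)) (G (zx (x ω)))| ≤ 3 * C₀ / 2 ^ L) {r : ℕ} (hr : r ≤ L) :
    CH p (fun ω => Nr L pos r (x ω)) (fun ω => (Yr L pos r (x ω), zx (x ω))) ≤ Cadd n C₀ := by
  have hp := hF.leaf.isLaw
  have h1 := CH_le_int hp.nonneg hp.sum_one (fun ω => (Nr L pos r (x ω) : ℤ))
    (fun ω => (Yr L pos r (x ω), zx (x ω))) (fun _ => (3 * n + 6) * C₀ + 1)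
    (fun ω ω' a b h => near_N hF hC₀ hreg hgr hr a b (Prod.ext_iff.mp h).1 (Prod.ext_iff.mp h).2)
  rw [Ex_const hp.sum_one] at h1
  refine le_trans (le_of_eq ?_) h1
  exact CH_congr hp.nonneg
    (fun ω ω' _ _ h => by
      have := (Prod.ext_iff.mp h).1
      simp only at this ⊢
      rw [this])
    (fun ω ω' _ _ h => by
      have := (Prod.ext_iff.mp h).1
      simp only at this ⊢
      exact_mod_cast this)
    (fun _ _ _ _ h => h) (fun _ _ _ _ h => h)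

/-- The base coordinates between two rows are full given the leaf. -/
lemma full_Y (hF : StepF n a L C₀ p lam x T pos A B zx zl cz) {ef : ℝ}
    (hef : n * (L * Real.log 2) - CH p (fun ω => bas pos (x ω)) (fun ω => zx (x ω)) ≤ ef)
    {r r' : ℕ} (hr : r ≤ r') (hr' : r' ≤ L) :
    n * (((r' : ℝ) - r) * Real.log 2) - ef ≤
      CH p (fun ω => Yr L pos r' (x ω)) (fun ω => (Yr L pos r (x ω), zx (x ω))) := by
  have hp := hF.leaf.isLaw
  have hp0 := hp.nonneg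
  have c1 := CH_chain hp0 (fun ω => bas pos (x ω)) (fun ω => Yr L pos r' (x ω))
    (fun ω => zx (x ω))
  have c2 := CH_chain hp0 (fun ω => Yr L pos r' (x ω)) (fun ω => Yr L pos r (x ω))
    (fun ω => zx (x ω))
  have c3 : CH p (fun ω => bas pos (x ω)) (fun ω => zx (x ω)) ≤
      CH p (fun ω => (bas pos (x ω), Yr L pos r' (x ω))) (fun ω => zx (x ω)) :=
    CH_mono_left hp0 (fun ω ω' _ _ h => (Prod.ext_iff.mp (Prod.ext_iff.mp h).1).1)
  have c4 : CH p (fun ω => Yr L pos r' (x ω)) (fun ω => zx (x ω)) ≤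
      CH p (fun ω => (Yr L pos r' (x ω), Yr L pos r (x ω))) (fun ω => zx (x ω)) :=
    CH_mono_left hp0 (fun ω ω' _ _ h => (Prod.ext_iff.mp (Prod.ext_iff.mp h).1).1)
  have b1 : CH p (fun ω => Yr L pos r (x ω)) (fun ω => zx (x ω)) ≤ n * (r * Real.log 2) :=
    ch_sub hp0 hp.sum_one _ _ (fun ζ i => cz ζ (some i)) (fun ω _ i => by
      simp only [Yr]
      rw [div_pow_self _ (hr.trans hr'), hF.cell])
  have b2 : CH p (fun ω => bas pos (x ω)) (fun ω => (Yr L pos r' (x ω), zx (x ω))) ≤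
      n * (((L - r' : ℕ) : ℝ) * Real.log 2) :=
    ch_sub hp0 hp.sum_one _ _ (fun w i => w.1 i) (fun ω _ i => rfl)
  have e : ((L - r' : ℕ) : ℝ) = (L : ℝ) - r' := Nat.cast_sub hr'
  rw [e] at b2
  have e2 : (n : ℝ) * (L * Real.log 2) = n * (((r' : ℝ) - r) * Real.log 2) +
      n * (r * Real.log 2) + n * (((L : ℝ) - r') * Real.log 2) := by ring
  linarith

/-- **(JADD)** Superadditivity of the row entropies. -/
theorem hrw_add (hF : StepF n a L C₀ p lam x T pos A B zx zl cz) (hC₀ : 0 ≤ C₀)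
    (hreg : ∀ ω, 0 < p ω → RegG (G (zx (x ω))) (fun _ => 0) 1 k₀ (3 * C₀))
    (hgr : ∀ ω, 0 < p ω → |rp (2 ^ L) (posS pos L) (x ω) none - MvPolynomial.eval
      (yb L pos (x ω)) (G (zx (x ω)))| ≤ 3 * C₀ / 2 ^ L) (wz : Z → β) {ef : ℝ}
    (hef : n * (L * Real.log 2) - CH p (fun ω => bas pos (x ω)) (fun ω => zx (x ω)) ≤ ef)
    {r₁ r₂ r₃ : ℕ} (h12 : r₁ ≤ r₂) (h23 : r₂ ≤ r₃) (h3L : r₃ ≤ L) :
    hrw p x L pos (fun ξ => wz (zx ξ)) r₁ r₂ + hrw p x L pos (fun ξ => wz (zx ξ)) r₂ r₃ ≤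
      hrw p x L pos (fun ξ => wz (zx ξ)) r₁ r₃ + ef + Cadd n C₀ := by
  have hp := hF.leaf.isLaw
  have hp0 := hp.nonneg
  have hN : ∀ {r r' : ℕ}, r ≤ r' → r' ≤ L → ∀ ξ, Nr L pos r ξ = Nr L pos r' ξ / 2 ^ (r' - r) := by
    intro r r' h h' ξ
    simp only [Nr]
    rw [div_pow_sub _ h h']
  have hY : ∀ {r r' : ℕ}, r ≤ r' → r' ≤ L → ∀ ξ,
      Yr L pos r ξ = fun i => Yr L pos r' ξ i / 2 ^ (r' - r) := by
    intro r r' h h' ξ
    funext i
    simp only [Yr]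
    rw [div_pow_sub _ h h']
  have h2L := h23.trans h3L
  -- (1)
  set N1 : Ω → ℕ := fun ω => Nr L pos r₁ (x ω) with hN1
  set N2 : Ω → ℕ := fun ω => Nr L pos r₂ (x ω) with hN2
  set N3 : Ω → ℕ := fun ω => Nr L pos r₃ (x ω) with hN3
  set Y2 : Ω → Fin n → ℕ := fun ω => Yr L pos r₂ (x ω) with hY2
  set Y3 : Ω → Fin n → ℕ := fun ω => Yr L pos r₃ (x ω) with hY3
  set w : Ω → β := fun ω => wz (zx (x ω)) with hw
  set z : Ω → Z := fun ω => zx (x ω) with hz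
  have s13 : hrw p x L pos (fun ξ => wz (zx ξ)) r₁ r₃ = CH p N3 (fun ω => (Y3 ω, (N1 ω, w ω))) :=
    rfl
  have s12 : hrw p x L pos (fun ξ => wz (zx ξ)) r₁ r₂ = CH p N2 (fun ω => (Y2 ω, (N1 ω, w ω))) :=
    rfl
  have s23 : hrw p x L pos (fun ξ => wz (zx ξ)) r₂ r₃ = CH p N3 (fun ω => (Y3 ω, (N2 ω, w ω))) :=
    rfl
  have d32 : ∀ ω ω', N3 ω = N3 ω' → N2 ω = N2 ω' := by
    intro ω ω' h
    simp only [hN2, hN3] at h ⊢
    rw [hN h23 h3L, hN h23 h3L, h]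
  have d21 : ∀ ω ω', N2 ω = N2 ω' → N1 ω = N1 ω' := by
    intro ω ω' h
    simp only [hN1, hN2] at h ⊢
    rw [hN h12 h2L, hN h12 h2L, h]
  have dY : ∀ ω ω', Y3 ω = Y3 ω' → Y2 ω = Y2 ω' := by
    intro ω ω' h
    simp only [hY2, hY3] at h ⊢
    rw [hY h23 h3L, hY h23 h3L, h]
  have a1 : CH p (fun ω => (N3 ω, N2 ω)) (fun ω => (Y3 ω, (N1 ω, w ω))) ≤
      CH p N3 (fun ω => (Y3 ω, (N1 ω, w ω))) :=
    CH_mono_left hp0 (fun ω ω' _ _ h => Prod.ext (Prod.ext_iff.mp h).1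
      (d32 ω ω' (Prod.ext_iff.mp h).1))
  rw [CH_chain hp0] at a1
  have a2 : CH p N3 (fun ω => (Y3 ω, (N2 ω, w ω))) ≤
      CH p N3 (fun ω => (N2 ω, (Y3 ω, (N1 ω, w ω)))) :=
    CH_mono_cond hp0 (fun ω ω' _ _ h => by
      simp only [Prod.mk.injEq] at h ⊢
      exact ⟨h.2.1, h.1, d21 ω ω' h.2.1, h.2.2⟩)
  -- (3)
  have b1 : CH p N2 (fun ω => (Y3 ω, (Y2 ω, (N1 ω, w ω)))) ≤
      CH p N2 (fun ω => (Y3 ω, (N1 ω, w ω))) :=
    CH_mono_cond hp0 (fun ω ω' _ _ h => by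
      simp only [Prod.mk.injEq] at h ⊢
      exact ⟨h.1, h.2.2⟩)
  have b2 := CH_chain hp0 N2 Y3 (fun ω => (Y2 ω, (N1 ω, w ω)))
  have b3 := CH_chain hp0 Y3 N2 (fun ω => (Y2 ω, (N1 ω, w ω)))
  have b4 : CH p (fun ω => (N2 ω, Y3 ω)) (fun ω => (Y2 ω, (N1 ω, w ω))) =
      CH p (fun ω => (Y3 ω, N2 ω)) (fun ω => (Y2 ω, (N1 ω, w ω))) :=
    CH_congr hp0
      (fun ω ω' _ _ h => by
        simp only [Prod.mk.injEq] at h ⊢
        exact ⟨h.1.2, h.1.1⟩)
      (fun ω ω' _ _ h => by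
        simp only [Prod.mk.injEq] at h ⊢
        exact ⟨h.1.2, h.1.1⟩)
      (fun _ _ _ _ h => h) (fun _ _ _ _ h => h)
  have e32 : ((r₃ - r₂ : ℕ) : ℝ) = (r₃ : ℝ) - r₂ := Nat.cast_sub h23
  have b5 : CH p Y3 (fun ω => (Y2 ω, (N1 ω, w ω))) ≤ n * (((r₃ : ℝ) - r₂) * Real.log 2) := by
    rw [← e32]
    exact ch_sub hp0 hp.sum_one _ _ (fun v i => v.1 i) (fun ω _ i => by
      simp only [hY3, hY2, Yr]
      rw [div_pow_sub _ h23 h3L])
  have b6 : CH p Y3 (fun ω => (N2 ω, (Y2 ω, z ω))) ≤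
      CH p Y3 (fun ω => (N2 ω, (Y2 ω, (N1 ω, w ω)))) :=
    CH_mono_cond hp0 (fun ω ω' _ _ h => by
      simp only [Prod.mk.injEq] at h ⊢
      refine ⟨h.1, h.2.1, d21 ω ω' h.1, ?_⟩
      simp only [hw]
      have := h.2.2
      simp only [hz] at this
      rw [this])
  have b7 := CH_chain hp0 Y3 N2 (fun ω => (Y2 ω, z ω))
  have b8 : CH p Y3 (fun ω => (Y2 ω, z ω)) ≤ CH p (fun ω => (Y3 ω, N2 ω)) (fun ω => (Y2 ω, z ω)) :=
    CH_mono_left hp0 (fun ω ω' _ _ h => (Prod.ext_iff.mp (Prod.ext_iff.mp h).1).1)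
  have b9 : CH p N2 (fun ω => (Y2 ω, z ω)) ≤ Cadd n C₀ := CH_N_le hF hC₀ hreg hgr h2L
  have b10 : n * (((r₃ : ℝ) - r₂) * Real.log 2) - ef ≤ CH p Y3 (fun ω => (Y2 ω, z ω)) :=
    full_Y hF hef h23 h3L
  rw [s12, s13, s23]
  linarith

end

end Pool.KJ
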