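import Pool.Agent.H72.KJ.Stmts
import Pool.Agent.H53.KJ.Add

/-!
# LEMMA J: row JADD
-/

set_option autoImplicit false

namespace Pool.KJ

open Finset Real
open Pool.Agent.H49.Ent Pool.Agent.H32.Dense Pool.STK Pool.KAF Pool.KAL Pool.KST Pool.KS3

/-- **(JADD)** -/
theorem jadd_thm : JADDStmt := by
  intro n C₀ hC₀
  refine ⟨max 1 (Cadd n C₀), le_max_left _ _, ?_⟩
  intro a L k₀ Ω Λ Ξ Z β _ p lam x T pos A B zx zl cz G wz ef r₁ r₂ r₃ hF hreg hgr hef h12 h23 h3L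
  have h := hrw_add hF (by linarith) hreg hgr wz hef h12 h23 h3L
  have h1 := le_max_right 1 (Cadd n C₀)
  linarith

end Pool.KJ
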